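import Pool.Agent.Helper74.DIH.Goals

/-!
# Project NW+, packet DIH, part D3
-/

set_option autoImplicit false

namespace Pool.Agent.Helper7.DIH

open Pool.Agent.Helper52.Wq2 Pool.Agent.Helper61.NW Pool.Agent.Helper74.DIH

universe u

variable {Γ : Type u} [Group Γ] {ε : Γ →* ℤˣ} {h : Γ → ℤ}

theorem h_one (hd : Dh ε h) : h 1 = 0 := by
  have := hd.coc 1 1
  rw [mul_one, map_one] at this
  simp only [Units.val_one, one_mul] at this
  omega

theorem h_inv1 (hd : Dh ε h) {x : Γ} (hx : ε x = 1) : h x⁻¹ = - h x := by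
  have := hd.coc x x⁻¹
  rw [mul_inv_cancel, h_one hd, hx] at this
  simp only [Units.val_one, one_mul] at this
  omega

theorem h_inv2 (hd : Dh ε h) {x : Γ} (hx : ε x = -1) : h x⁻¹ = h x := by
  have := hd.coc x x⁻¹
  rw [mul_inv_cancel, h_one hd, hx] at this
  simp only [Units.val_neg, Units.val_one] at this
  omega

/-- **D3.** -/
theorem d3 : D3Stmt.{u} := by
  intro Γ _ ε h S hd hS hfin
  have hε : ∀ x, ε x = 1 ∨ ε x = -1 := fun x => Int.units_eq_one_or (ε x)
  have hclo : ∀ x : Γ, x ∈ Subgroup.closure S := fun x => by rw [hS.1]; trivial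
  -- a reflection in `S`
  have hR : {u | u ∈ S ∧ ε u = -1}.Nonempty := by
    by_contra hcon
    rw [Set.not_nonempty_iff_eq_empty] at hcon
    have h1 : ∀ u ∈ S, ε u = 1 := by
      intro u hu
      rcases hε u with h1 | h1
      · exact h1
      · have : u ∈ ({u | u ∈ S ∧ ε u = -1} : Set Γ) := ⟨hu, h1⟩
        rw [hcon] at this
        exact absurd this (Set.notMem_empty u)
    have h2 : ∀ x : Γ, ε x = 1 := by
      intro x
      have hx := hclo x
      induction hx using Subgroup.closure_induction with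
      | mem u hu => exact h1 u hu
      | one => exact map_one ε
      | mul x y _ _ hx hy => rw [map_mul, hx, hy, mul_one]
      | inv x _ hx => rw [map_inv, hx, inv_one]
    obtain ⟨u, hu⟩ := hd.neg
    rw [h2 u] at hu
    exact absurd hu (by decide)
  have hRf : {u | u ∈ S ∧ ε u = -1}.Finite := hfin.subset fun u hu => hu.1
  obtain ⟨t, ⟨htS, htε⟩, htmax⟩ := Set.exists_max_image _ h hRf hR
  obtain ⟨r, ⟨hrS, hrε⟩, hrmin⟩ := Set.exists_min_image _ h hRf hR
  have hrt : h r ≤ h t := htmax r ⟨hrS, hrε⟩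
  have hneg : (((-1 : ℤˣ)) : ℤ) = -1 := rfl
  have hrefl : ∀ u ∈ S, ε u = -1 →
      |4 * h u + ((ε u : ℤ) - 1) * (h t + h r)| ≤ 2 * (h t - h r) := by
    intro u hu hu1
    have h1 := htmax u ⟨hu, hu1⟩
    have h2 := hrmin u ⟨hu, hu1⟩
    rw [hu1, hneg, abs_le]
    constructor <;> omega
  by_cases hT : ∃ u, (u ∈ S ∧ ε u = 1) ∧ 2 * (h t - h r) < |4 * h u|
  · -- translations win
    have hTf : {u | u ∈ S ∧ ε u = 1}.Finite := hfin.subset fun u hu => hu.1
    obtain ⟨u₀, hu₀, hu₀'⟩ := hT
    obtain ⟨a, ⟨haS, haε⟩, hamax⟩ :=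
      Set.exists_max_image {u | u ∈ S ∧ ε u = 1} (fun u => |4 * h u|) hTf ⟨u₀, hu₀⟩
    have ha1 : 2 * (h t - h r) < |4 * h a| := lt_of_lt_of_le hu₀' (hamax u₀ hu₀)
    -- choose the sign
    have key : ∃ p, p ∈ S ∧ ε p = 1 ∧ 4 * h p = |4 * h a| := by
      rcases abs_choice (4 * h a) with h1 | h1
      · exact ⟨a, haS, haε, h1.symm⟩
      · refine ⟨a⁻¹, hS.2.1 a haS, by rw [map_inv, haε, inv_one], ?_⟩
        rw [h_inv1 hd haε, h1]
        ring
    obtain ⟨p, hpS, hpε, hp⟩ := key
    have hqε : ε p⁻¹ = 1 := by rw [map_inv, hpε, inv_one]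
    refine ⟨h t + h r, |4 * h a|, p, p⁻¹, by omega, hpS, hS.2.1 p hpS, Or.inl ⟨hpε, rfl⟩, ?_, ?_,
      ?_⟩
    · rw [hpε, hp]
      simp
    · rw [hqε, h_inv1 hd hpε, ← hp]
      simp
    · intro u hu
      rcases hε u with h1 | h1
      · have := hamax u ⟨hu, h1⟩
        rw [h1]
        simpa using this
      · have := hrefl u hu h1
        omega
  · push Not at hT
    have hT' : ∀ u ∈ S, ε u = 1 → |4 * h u| ≤ 2 * (h t - h r) := fun u hu h1 => hT u ⟨hu, h1⟩
    have hD : 0 < 2 * (h t - h r) := by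
      by_contra hD
      have h0 : h t = h r := by omega
      have h1 : ∀ x : Γ, (ε x = 1 → h x = 0) ∧ (ε x = -1 → h x = h t) := by
        intro x
        have hx := hclo x
        induction hx using Subgroup.closure_induction with
        | mem u hu =>
          refine ⟨fun h1 => ?_, fun h1 => ?_⟩
          · have := abs_le.1 (hT' u hu h1)
            omega
          · have h2 := htmax u ⟨hu, h1⟩
            have h3 := hrmin u ⟨hu, h1⟩
            omega
        | one =>
          refine ⟨fun _ => h_one hd, fun h1 => ?_⟩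
          rw [map_one] at h1
          exact absurd h1 (by decide)
        | mul x y _ _ hx hy =>
          rw [hd.coc, map_mul]
          rcases hε x with h1 | h1 <;> rcases hε y with h2 | h2
          · rw [h1, h2, hx.1 h1, hy.1 h2]
            exact ⟨fun _ => by simp, fun h3 => absurd h3 (by decide)⟩
          · rw [h1, h2, hx.1 h1, hy.2 h2]
            exact ⟨fun h3 => absurd h3 (by decide), fun _ => by simp⟩
          · rw [h1, h2, hx.2 h1, hy.1 h2]
            exact ⟨fun h3 => absurd h3 (by decide), fun _ => by simp⟩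
          · rw [h1, h2, hx.2 h1, hy.2 h2]
            exact ⟨fun _ => by rw [hneg]; ring, fun h3 => absurd h3 (by decide)⟩
        | inv x _ hx =>
          rcases hε x with h1 | h1
          · rw [h_inv1 hd h1, hx.1 h1, map_inv, h1, inv_one]
            exact ⟨fun _ => by simp, fun h3 => absurd h3 (by decide)⟩
          · rw [h_inv2 hd h1, hx.2 h1, map_inv, h1]
            exact ⟨fun h3 => absurd h3 (by decide), fun _ => rfl⟩
      obtain ⟨g, hg1, hg2⟩ := hd.unb
      exact hg2 ((h1 g).1 hg1)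
    refine ⟨h t + h r, 2 * (h t - h r), t, r, hD, htS, hrS, Or.inr ⟨htε, hrε⟩, ?_, ?_, ?_⟩
    · rw [htε, hneg]
      ring
    · rw [hrε, hneg]
      ring
    · intro u hu
      rcases hε u with h1 | h1
      · have := hT' u hu h1
        rw [h1]
        simpa using this
      · exact hrefl u hu h1

end Pool.Agent.Helper7.DIH
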